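import Pool.Agent.SCS.FCompl
import Pool.Agent.SCS.Classes

/-!
# Threshold reductions to a P-close set give threshold reductions to the sparse difference

If `D` is in P and `S x = xor (B x) (D x)`, then `[y ∈ B] = [y ∈ S]` for `y ∉ D` and
`[y ∈ B] = 1 - [y ∈ S]` for `y ∈ D`; so a product of at most `d` such indicators is a signed sum of at
most `2 ^ d` products of indicators of `S`, computed in polynomial time.
-/

set_option autoImplicit false

namespace Pool.Agent.PCL85

open Pool.Agent.PolyTime Pool.Agent.NegLim Pool.Agent.SCS Pool.Agent.SCS.FComplAux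

/-- the difference set -/
def dif (B D : List Bool → Bool) : List Bool → Bool := fun x => xor (B x) (D x)

/-- one word is moved from the list to the formal sum -/
def stepD (D : List Bool → Bool) (p : List Term × List (List Bool)) :
    List Term × List (List Bool) :=
  match p.2 with
  | [] => p
  | y :: l => (if D y = true then p.1 ++ p.1.map (fun t => (!t.1, y :: t.2))
      else p.1.map (fun t => (t.1, y :: t.2)), l)

/-- the expansion of a term -/
def expandD (D : List Bool → Bool) (d : ℕ) (t : Term) : List Term :=
  ((stepD D)^[d] ([(t.1, [])], t.2)).1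

theorem polyF_stepD {D : List Bool → Bool} (hD : PolyF D) : PolyF (stepD D) := by
  have h1 : PolyF (fun p : List Term × List (List Bool) => p.2) := PolyF.id.snd
  have hg : PolyF (fun q : (List Term × List (List Bool)) × List Bool × List (List Bool) =>
      (((if D q.2.1 = true then q.1.1 ++ q.1.1.map (fun t : Term => ((!t.1, q.2.1 :: t.2) : Term))
        else q.1.1.map (fun t : Term => ((t.1, q.2.1 :: t.2) : Term))), q.2.2) :
        List Term × List (List Bool))) := by
    refine PolyF.pair ?_ PolyF.id.snd.snd
    refine PolyF.ite (PolyF.comp hD PolyF.id.snd.fst) ?_ ?_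
    · refine PolyF.append PolyF.id.fst.fst ?_
      have hf : PolyF (fun r : ((List Term × List (List Bool)) × List Bool × List (List Bool)) ×
          Term => ((!r.2.1, r.1.2.1 :: r.2.2) : Term)) :=
        PolyF.pair (PolyF.not PolyF.id.snd.fst) (PolyF.cons PolyF.id.fst.snd.fst PolyF.id.snd.snd)
      exact PolyF.map PolyF.id.fst.fst hf
    · have hf : PolyF (fun r : ((List Term × List (List Bool)) × List Bool × List (List Bool)) ×
          Term => ((r.2.1, r.1.2.1 :: r.2.2) : Term)) :=
        PolyF.pair PolyF.id.snd.fst (PolyF.cons PolyF.id.fst.snd.fst PolyF.id.snd.snd)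
      exact PolyF.map PolyF.id.fst.fst hf
  have h2 := PolyF.listCase h1 (PolyF.id (α := List Term × List (List Bool))) hg
  refine h2.congr ?_
  intro p
  unfold stepD
  rcases p with ⟨X, _ | ⟨y, l⟩⟩ <;> rfl

theorem polyF_iterD {D : List Bool → Bool} (hD : PolyF D) (d : ℕ) :
    PolyF (fun p => (stepD D)^[d] p) := by
  induction d with
  | zero => exact PolyF.id
  | succ d ih =>
    have h := PolyF.comp ih (polyF_stepD hD)
    refine h.congr ?_
    intro p
    rfl

theorem polyF_expandD {D : List Bool → Bool} (hD : PolyF D) (d : ℕ) :
    PolyF (fun t : Term => expandD D d t) := by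
  have h0 : PolyF (fun t : Term => (([(t.1, [])], t.2) : List Term × List (List Bool))) :=
    PolyF.pair (PolyF.singleton (PolyF.pair PolyF.id.fst (PolyF.const []))) PolyF.id.snd
  exact (PolyF.comp (polyF_iterD hD d) h0).fst

theorem lin_map_not (S : List Bool → Bool) (y : List Bool) (X : List Term) :
    lin (ind S) (X.map (fun t => ((!t.1, y :: t.2) : Term)))
      = - ((if S y = true then 1 else 0) * lin (ind S) X) := by
  induction X with
  | nil => simp [lin]
  | cons t X ih =>
    rw [List.map_cons, lin_cons, lin_cons, ih, sgn_not, ind_cons]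
    ring

theorem lin_map_same (S : List Bool → Bool) (y : List Bool) (X : List Term) :
    lin (ind S) (X.map (fun t => ((t.1, y :: t.2) : Term)))
      = (if S y = true then 1 else 0) * lin (ind S) X := by
  induction X with
  | nil => simp [lin]
  | cons t X ih =>
    rw [List.map_cons, lin_cons, lin_cons, ih, ind_cons]
    ring

theorem lin_stepD (B D : List Bool → Bool) (y : List Bool) (X : List Term) :
    lin (ind (dif B D)) (if D y = true then X ++ X.map (fun t => (!t.1, y :: t.2))
      else X.map (fun t => (t.1, y :: t.2)))
      = lin (ind (dif B D)) X * (if B y = true then 1 else 0) := by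
  by_cases hD : D y = true
  · rw [if_pos hD, lin_append, lin_map_not]
    by_cases hB : B y = true
    · simp [dif, hB, hD]
    · simp [dif, hB, hD]
  · rw [if_neg hD, lin_map_same]
    by_cases hB : B y = true
    · simp [dif, hB, hD]
    · simp [dif, hB, hD]

theorem lin_iterD (B D : List Bool → Bool) (d : ℕ) :
    ∀ p : List Term × List (List Bool), p.2.length ≤ d →
      lin (ind (dif B D)) ((stepD D)^[d] p).1 = lin (ind (dif B D)) p.1 * ind B p.2 := by
  induction d with
  | zero =>
    rintro ⟨X, l⟩ h
    have hl : l = [] := List.length_eq_zero_iff.mp (Nat.le_zero.mp h)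
    subst hl
    simp [ind]
  | succ d ih =>
    rintro ⟨X, l⟩ h
    rw [Function.iterate_succ_apply]
    rcases l with _ | ⟨y, l⟩
    · have := ih (X, []) (Nat.zero_le _)
      exact this
    · have h2 : l.length ≤ d := by simpa using h
      have := ih (if D y = true then X ++ X.map (fun t => (!t.1, y :: t.2))
        else X.map (fun t => (t.1, y :: t.2)), l) h2
      refine this.trans ?_
      dsimp only
      rw [lin_stepD, ind_cons]
      ring

theorem lin_expandD (B D : List Bool → Bool) {d : ℕ} {t : Term} (h : t.2.length ≤ d) :
    lin (ind (dif B D)) (expandD D d t) = sgn t.1 * ind B t.2 := by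
  unfold expandD
  rw [lin_iterD B D d _ h]
  simp [lin, ind]

theorem length_iterD (D : List Bool → Bool) (d : ℕ) :
    ∀ (p : List Term × List (List Bool)) (m : ℕ), (∀ t ∈ p.1, t.2.length ≤ m) →
      ∀ t ∈ ((stepD D)^[d] p).1, t.2.length ≤ m + d := by
  induction d with
  | zero => intro p m h; simpa using h
  | succ d ih =>
    rintro ⟨X, l⟩ m h
    rw [Function.iterate_succ_apply]
    have key : ∀ t ∈ (stepD D (X, l)).1, t.2.length ≤ m + 1 := by
      rcases l with _ | ⟨y, l⟩
      · intro t ht
        have : t ∈ X := ht
        exact (h t this).trans (Nat.le_succ _)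
      · intro t ht
        have ht' : t ∈ (if D y = true then X ++ X.map (fun t => ((!t.1, y :: t.2) : Term))
          else X.map (fun t => ((t.1, y :: t.2) : Term))) := ht
        by_cases hD : D y = true
        · rw [if_pos hD, List.mem_append, List.mem_map] at ht'
          rcases ht' with ht' | ⟨t', ht', rfl⟩
          · exact (h t ht').trans (Nat.le_succ _)
          · have := h t' ht'
            simpa using this
        · rw [if_neg hD, List.mem_map] at ht'
          obtain ⟨t', ht', rfl⟩ := ht'
          have := h t' ht'
          simpa using this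
    have := ih (stepD D (X, l)) (m + 1) key
    intro t ht
    have := this t ht
    omega

theorem length_expandD {D : List Bool → Bool} {d : ℕ} {t s : Term} (h : s ∈ expandD D d t) :
    s.2.length ≤ d := by
  have := length_iterD D d ([(t.1, [])], t.2) 0 (by
    intro t' ht'
    have : t' = (t.1, []) := by simpa using ht'
    subst this
    simp) s h
  simpa using this

/-- A threshold reduction to `B` gives one to the difference of `B` and a set in P. -/
theorem thrReduces_dif {A B D : List Bool → Bool} (hD : InP D) (h : ThrReduces A B) :
    ThrReduces A (fun x => xor (B x) (D x)) := by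
  obtain ⟨d, R, hR, hd, hA⟩ := h.typed
  have hR' : PolyF (fun x => (R x).flatMap (fun t => expandD D d t)) :=
    PolyF.flatMap hR (PolyF.comp (polyF_expandD (inP_iff.mp hD) d) PolyF.id.snd)
  refine thrReduces_of_polyF d hR' ?_ ?_
  · intro x t ht
    obtain ⟨s, _, hs⟩ := List.mem_flatMap.mp ht
    exact length_expandD hs
  · intro x
    rw [hA x]
    have hlin : lin (ind (dif B D)) ((R x).flatMap (fun t => expandD D d t))
        = lin (ind B) (R x) := by
      rw [lin_flatMap]
      unfold lin
      congr 1
      refine List.map_congr_left ?_
      intro t ht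
      exact lin_expandD B D (hd x t ht)
    have e1 := acc_iff B (R x)
    have e2 := acc_iff (dif B D) ((R x).flatMap (fun t => expandD D d t))
    rw [hlin, ← e1] at e2
    exact (Bool.eq_iff_iff.mpr e2).symm

end Pool.Agent.PCL85
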